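import Pool.Agent.Results.MP_0704bf_ag.RandomOrbits
import Pool.Agent.U569.APL.Lin

/-!
# MP_0704bf_ag: Zilber-Pink for variations of Hodge structure with parameters formed from arbitrary sets

**The variations** are those of the starting result `RandomOrbits` (`Family r`): over a base `S_t ⊂ ℂ^N` given by any
polynomials with coefficients in `ℤ[t_1, …, t_r]` and `4 A_i(y)³ + 27 B_i(y)² ≠ 0` for `i ≤ n` there are the elliptic
curves `E_i : y² = x³ + A_i x + B_i` and the polarizable variation of Hodge structure `V_t = ⊕ R¹π_{i*} ℤ`, with the period
map `Φ` to `Y(1)^n = ℂ^n`. The condition: the points `(Φ(y), y)`, `y ∈ S_t`, satisfy a finite system `Q` of equations with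
coefficients in `ℤ[t_1, …, t_r]`; there are polynomials `f_1, …, f_M`, `G_1, …, G_M` such that for every `l` the coefficients
are `f_l ^ e · g` with `g ∣ G_l` (`orders`); each `f_l = 0` has many points outside of `G_l = 0` modulo primes (`Rich`, for
example `f_l` of degree one in a variable and coprime to `G_l`); and for every type of special subvarieties of dimension
less than `n - m` there is an `l` such that the tropicalization of the system along `f_l = 0` has no point compatible with the
type (`GenericOrders`). `Good t` says that every irreducible set `W` in `Φ(S_t) ∩ Z`, `Z` a special subvariety, satisfies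
`dim W + (n - m) ≤ dim Z`; so, if `dim Φ(S_t) = m`, there is no atypical special subvariety of `S_t` for `V_t`, except possibly
in the singular locus `S^sing`.

Let a sequence (`j = 0, 1, 2, …`) of families of vectors in `ℤ ^ ν`, `|ν| = R`, be given. The vectors of the `j`-th
family are `c₀ + y`, `c₀` an arbitrary integral vector (depending on `j`, of any size) and `y` one of the following vectors
(represented by `0, …, q - 1`):

* `y` in any family of vectors modulo some `q` (depending on `j`), whose nontrivial Fourier coefficients are at most
  `1 / (Z (42 + 3 log q) ^ R)`, where `Z → ∞`, `Z ≤ q`;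
* `β(x, z) + u(x) + w(z)` modulo a prime `P → ∞`, where `β : k ^ m × k ^ n → k ^ R` is bilinear, the nontrivial
  combinations of its coordinates have rank at least `ρ`, `x` and `z` are in ARBITRARY sets `E` and `F` with
  `|E| |F| ≥ P ^ (m + n - ρ + δ)`, `u` and `w` are arbitrary functions (for `δ > 0` fixed);
* the same for `β(x, z) = x z`, `x` and `z` in ARBITRARY subsets of the field of `P ^ R` elements,
  `|E| |F| ≥ P ^ (R + δ)`;
* polynomials in several variables of degree at most `P ^ (δ / 4)`, all nontrivial combinations of which have a monomial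
  with at least two variables, plus arbitrary functions of the single variables, on products of ARBITRARY sets of at
  least `P ^ (1 / 2 + δ)` residues;
* polynomials in one variable of degree at most `P ^ (δ / 4)`, no nontrivial combination of which is constant, on any
  subgroup of the multiplicative group modulo `P` with at least `P ^ (1 / 2 + δ)` elements.

**Theorem.** There are exceptions `E j`, `|E j| = o(size)`, such that for ALL `r`, ALL families of variations with `r`
parameters as above (all `n`, `N`, `m`, all bases, all elliptic curves) and ALL injective choices of `r` coordinates as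
parameters `t`, for large `j` and all vectors of the `j`-th family outside of `E j` the member at `t` is `Good`.

New: the families of the parameters, and one set of exceptions for all numbers of parameters. The local criterion and the
pronull sets are those of the starting library (`N603.TH`, `N400.RO`); such sets contain few members of the families by the
theorem of the starting library `N384.VF` on vectors of residues; the estimates of the Fourier coefficients on arbitrary
sets are in `U569/APL`.
-/

set_option autoImplicit false

namespace Pool.Agent.Results.MP_0704bf_ag.ArbitrarySets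

open Filter
open Pool.Agent.N24.RW (t_CLO ProNull)
open Pool.Agent.N603.TH (Divergent)
open Pool.Agent.N400.RO (Bd proNull_Bd countable_pol)
open Pool.Agent.Results.MP_0704bf_ag.RandomOrbits (Family)
open Pool.Agent.U569.APL

/-- one small set of exceptions for all numbers of parameters and all conditions on them -/
theorem engine {ν : Type} [Fintype ν] [DecidableEq ν] {τ : ℕ → Type}
    {s : ∀ j, Finset (τ j)} {v : ∀ j, τ j → ν → ℤ} (hs : FlatFamilies s v) :
    ∃ E : ∀ j, Finset (τ j), Small s E ∧
      ∀ (r : ℕ) (f : Fin r → ν), Function.Injective f → ∀ (g G : MvPolynomial (Fin r) ℤ) (D : ℕ), g ≠ 0 →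
        Divergent g G → Outside s E v fun c => (fun i => c (f i)) ∉ Bd g G D := by
  have hc := fun r => countable_pol r
  obtain ⟨E, hE, h⟩ := flat_diag hs
    (fun x : Σ r : ℕ, {y : (Fin r ↪ ν) × MvPolynomial (Fin r) ℤ × MvPolynomial (Fin r) ℤ × ℕ //
        y.2.1 ≠ 0 ∧ Divergent y.2.1 y.2.2.1} =>
      {c : ν → ℤ | (fun i => c (x.2.1.1 i)) ∈ Bd x.2.1.2.1 x.2.1.2.2.1 x.2.1.2.2.2})
    (fun x => (t_CLO (Fin x.1)).2.2.2.2 ν x.2.1.1 x.2.1.1.injective (Bd x.2.1.2.1 x.2.1.2.2.1 x.2.1.2.2.2)
      (proNull_Bd _ _ _ x.2.2.1 x.2.2.2))
  refine ⟨E, hE, fun r f hf g G D hg hG => ?_⟩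
  exact h ⟨r, ⟨(⟨f, hf⟩, g, G, D), hg, hG⟩⟩

/-- **Zilber-Pink for variations of Hodge structure at parameters formed from arbitrary sets.** -/
theorem result (ν : Type) [Fintype ν] :
    (∀ (τ : ℕ → Type) (s : ∀ j, Finset (τ j)) (v : ∀ j, τ j → ν → ℤ), FlatFamilies s v →
      ∃ E : ∀ j, Finset (τ j), Small s E ∧
        ∀ (r : ℕ) (F : Family r) (f : Fin r → ν), Function.Injective f →
          Outside s E v fun c => F.Good fun i => c (f i)) ∧
    Examples ν := by
  classical
  refine ⟨fun τ s v hs => ?_, examples _⟩
  obtain ⟨E, hE, h⟩ := engine hs
  refine ⟨E, hE, fun r F f hf => ?_⟩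
  obtain ⟨h1, D, h2⟩ := F.bad
  have h3 : ∀ᶠ j in atTop, ∀ l : Fin F.M, ∀ i ∈ s j, i ∉ E j → (fun a => v j i (f a)) ∉ Bd (F.f l) (F.G l) D :=
    eventually_all.2 fun l => h r f hf (F.f l) (F.G l) D (h1 l).1 (h1 l).2
  unfold Outside
  filter_upwards [h3] with j hj i hi hiE
  by_contra hcon
  obtain ⟨l, hl⟩ := Set.mem_iUnion.1 (h2 (show (fun a => v j i (f a)) ∈ {t | ¬ F.Good t} from hcon))
  exact hj l i hi hiE hl

end Pool.Agent.Results.MP_0704bf_ag.ArbitrarySets
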