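import Pool.Agent.U543.HtMain

/-!
# Points of the Hodge locus with Hodge tensors of bounded height, for arbitrary variations of Hodge structure

Let `V` be a polarised variation of integral Hodge structures over a connected open subset `U` of an affine space, with
period matrices `P(x)`, such that the functions algebraic over `ℂ(x)` in `ℂ(x, P)` are rational (for algebraic families: the
Zariski closure of the monodromy group is connected). A point `s` is in the Hodge locus if and only if some Hodge tensor of
`V_s` has an infinite orbit under the monodromy group. Countably many strict special subvarieties, typical and atypical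
ones, make up the Hodge locus. We show that the algebraic points `s` of height at most `T` which are in the Hodge locus
because of a Hodge tensor of bounded order and of height at most `T ^ k` lie on `T ^ ε` hypersurfaces of bounded degree, for
all bases and all variations, without any assumption on the monodromy group or the Hodge numbers. Moreover this remains
true for the Hodge tensors of `M₀ ⊕ V_s`, uniformly in all fixed polarised Hodge structures `M₀` (with arbitrary complex
periods, and of dimension tending to infinity with `T`): for example for the points at which `V_s` and `M₀` have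
common factors.
-/

namespace Pool.Agent.Results.MP_0704bf_ag.BoundedHodgeTensors

open Filter
open Pool.Agent.U543.GD (Height Covered IsMonodromy)
open Pool.Agent.U543.HT

/-- **Hodge tensors of bounded order and height have finite orbits at almost all algebraic points.** Let `V` be a
polarised variation of Hodge structure of weight `wt` on `U` (`Variation`: the period matrix `P x` is analytic in `x`, its
`j`-th column is in `F ^ (w j)`, and it satisfies the Riemann-Hodge bilinear relations with the integral form `S`). For a
number `k`, a number field `K` of degree at most `k`, embedded in `ℂ`, and a polarised Hodge structure `M₀` of weight `wt`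
and of dimension `r ≤ k` (with the period matrix `C₀`, adapted to the Hodge filtration by `w₀`, polarised by `S₀`) let
`Exceptional` be the set of all points `s` of `U` with coordinates in `K` of height at most `T`, of norm at most `k` and at
distance at least `1 / k` from the complement of `U`, at which some integral Hodge tensor of order `m ≤ k` of `M₀ ⊕ V_s`
with coordinates of absolute value at most `T ^ k` has an infinite orbit under `Auts U P S`.

(1) For every `k` and `ε > 0` there are `D`, `C` such that for all large `T` and all such `K` and `M₀` this set lies on at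
most `C T ^ ε` hypersurfaces of degree at most `D`, and has at most `D C T ^ ε N ^ (|X| - 1)` elements, `N` being the number
of elements of `K` of height at most `T`.
(2) There is `ω → ∞` such that for all large `T`, `k = ω T`, and all such `K` and `M₀` this set lies on at most
`T ^ (1 / k)` hypersurfaces of degree at most `T ^ (1 / k)`, and has at most `T ^ (1 / k) N ^ (|X| - 1)` elements.
(3) The set `Auts U P S` consists of the integral matrices `g` which preserve `S` and all polynomial relations over `ℂ[x]`
between the entries of `P`; the integral monodromy matrices which preserve `S` belong to it. -/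
theorem result (X ι : Type) [Fintype X] [DecidableEq X] [Nonempty X] [Fintype ι] [DecidableEq ι] (wt : ℤ) (w : ι → ℤ)
    (S : Matrix ι ι ℤ) (U : Set (X → ℂ)) (P : (X → ℂ) → Matrix ι ι ℂ) (h : Variation wt w S U P) :
    (∀ (k : ℕ) (ε : ℝ), 0 < ε → ∃ (D : ℕ) (C T₀ : ℝ), 0 ≤ C ∧ 2 ≤ T₀ ∧ ∀ T, T₀ ≤ T →
      ∀ (K : Type) [Field K] [NumberField K], Module.finrank ℚ K ≤ k → ∀ (io : K →+* ℂ) (r : ℕ), r ≤ k →
        ∀ (w₀ : Fin r → ℤ) (S₀ : Matrix (Fin r) (Fin r) ℤ) (C₀ : Matrix (Fin r) (Fin r) ℂ), Polarized wt w₀ S₀ C₀ →
        Covered D ⌊C * T ^ ε⌋₊ ((fun (s : X → K) j => io (s j)) '' Exceptional wt w S U P k K io w₀ C₀ T) ∧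
        (Exceptional wt w S U P k K io w₀ C₀ T).Finite ∧
        ((Exceptional wt w S U P k K io w₀ C₀ T).ncard : ℝ) ≤
          D * C * T ^ ε * ((Height K T).ncard : ℝ) ^ (Fintype.card X - 1)) ∧
    (∃ (ω : ℝ → ℕ) (T₀ : ℝ), Tendsto ω atTop atTop ∧ Monotone ω ∧ ∀ T, T₀ ≤ T → 0 < ω T ∧
      ∀ (K : Type) [Field K] [NumberField K], Module.finrank ℚ K ≤ ω T → ∀ (io : K →+* ℂ) (r : ℕ), r ≤ ω T →
        ∀ (w₀ : Fin r → ℤ) (S₀ : Matrix (Fin r) (Fin r) ℤ) (C₀ : Matrix (Fin r) (Fin r) ℂ), Polarized wt w₀ S₀ C₀ →
        Covered ⌊T ^ ((ω T : ℝ)⁻¹)⌋₊ ⌊T ^ ((ω T : ℝ)⁻¹)⌋₊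
          ((fun (s : X → K) j => io (s j)) '' Exceptional wt w S U P (ω T) K io w₀ C₀ T) ∧
        (Exceptional wt w S U P (ω T) K io w₀ C₀ T).Finite ∧
        ((Exceptional wt w S U P (ω T) K io w₀ C₀ T).ncard : ℝ) ≤
          T ^ ((ω T : ℝ)⁻¹) * ((Height K T).ncard : ℝ) ^ (Fintype.card X - 1)) ∧
    ∀ g : Matrix ι ι ℤ, IsMonodromy U P (g.map (Int.cast : ℤ → ℂ)) → g * S * g.transpose = S → g ∈ Auts U P S :=
  ⟨fun k ε hε => main_fix h k ε hε, main h,
    fun _ hg hS => ⟨Pool.Agent.U543.GD.gal_of_monodromy h.family.isPreconnected h.family.analytic hg, hS⟩⟩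

end Pool.Agent.Results.MP_0704bf_ag.BoundedHodgeTensors
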