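import Pool.Agent.Results.MP_0704bf_ag.RandomOrbits
import Pool.Agent.U125.NO.Seq

/-!
# MP_0704bf_ag: Zilber-Pink for variations of Hodge structure along every normal sequence of parameters

The families, the condition on their tropicalizations and the meaning of `Family.Good` are those of the
starting result `RandomOrbits`: a `Family r` consists of bases `S_t`, `t ∈ ℤ^r`, with `n` elliptic curves, and
`Good t` says that every irreducible constructible subset `W` of the image `Φ(S_t)` of the period map which lies
in a special subvariety `Z` of `Y(1)^n` satisfies `dim W + (n - m) ≤ dim Z`, so that the member at `t` has no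
atypical special subvarieties.

**Theorem.** Let `c_0, c_1, …` be a normal orbit in `ℤ^r` (`NormalOrbit`): the orbit of an integral
vector under a finite family of integral affine maps along ANY normal sequence of indices, the family being wide
(for all `q` prime to some `q₀` the maps are bijective modulo `q`, and the vector can be moved to at least the
proportion `ε > 0`, not depending on `q`, of all vectors modulo `q`). There is ONE set `E` of times of density
zero such that for ALL families with the condition (all bases and all elliptic curves) the member at
`t = c_k` is good for all but finitely many `k ∉ E`.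

Examples (second part): (1) `c_k = (⌊b ^ k ξ_l⌋)_l` for ANY vector `ξ` of real numbers which is normal to the
base `b ≥ 2`; (2) the orbit of any vector `v ≠ 0` along ANY normal word in matrices which generate the special
linear group modulo all `q` prime to some `q₀` (generators of a thin group); (3) vectors of integers whose
digits are chosen from a restricted set of vectors.

The starting result `RandomOrbits` has the orbits of thin groups for ALMOST ALL words, `MetricSequences` almost
all real numbers, `ConvergentsOfNormalNumbers` the convergents of continued fraction normal numbers.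

Proof. The exceptional vectors of a family are contained in finitely many of the pronull sets of the vectors
`t` for which `f(t)` is zero or has no prime divisor above `D` which does not divide `G(t)` (`Family.bad`,
starting library). Normal orbits visit a pronull set only at times of density zero (engine
`Pool.Agent.U125.NO` of helper125), and there are countably many `(f, G, D)`.
-/

set_option autoImplicit false

namespace Pool.Agent.Results.MP_0704bf_ag.NormalSequences

open Filter Topology MvPolynomial
open Pool.Agent.U125.NO (Avoids NormalOrbit Examples examples)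
open Pool.Agent.Results.MP_0704bf_ag.RandomOrbits (Family)

/-- The set `E` of natural numbers has density zero. -/
def Null (E : Set ℕ) : Prop :=
  Tendsto (fun N : ℕ => (({m : ℕ | m < N ∧ m ∈ E}.ncard : ℕ) : ℝ) / (N : ℝ)) atTop (𝓝 0)

/-- The polynomials with the property used for the exceptional sets. -/
def Pairs (r : ℕ) : Type :=
  {x : (MvPolynomial (Fin r) ℤ × MvPolynomial (Fin r) ℤ) × ℕ //
    x.1.1 ≠ 0 ∧ Pool.Agent.N603.TH.Divergent x.1.1 x.1.2}

instance (r : ℕ) : Countable (Pairs r) := by
  have := Pool.Agent.N400.RO.countable_pol r
  unfold Pairs
  infer_instance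

theorem of_avoids {r : ℕ} {c : ℕ → Fin r → ℤ} (hc : Avoids c) :
    ∃ E : Set ℕ, Null E ∧ ∀ F : Family r, {k : ℕ | k ∉ E ∧ ¬ F.Good (c k)}.Finite := by
  obtain ⟨E, e1, e2⟩ := hc.diag (K := Pairs r)
    (fun x t => t ∈ Pool.Agent.N400.RO.Bd x.1.1.1 x.1.1.2 x.1.2)
    (fun x => Pool.Agent.N400.RO.proNull_Bd _ _ _ x.2.1 x.2.2)
  refine ⟨E, e1, fun F => ?_⟩
  obtain ⟨h1, D, h2⟩ := F.bad
  refine (Set.finite_iUnion fun l : Fin F.M =>
    e2 ⟨((F.f l, F.G l), D), (h1 l).1, (h1 l).2⟩).subset ?_
  rintro k ⟨hk, hk2⟩
  obtain ⟨l, hl⟩ := Set.mem_iUnion.1 (h2 hk2)
  exact Set.mem_iUnion.2 ⟨l, hk, hl⟩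

theorem result (r : ℕ) :
    (∀ c : ℕ → Fin r → ℤ, NormalOrbit c → ∃ E : Set ℕ, Null E ∧
      ∀ F : Family r, {k : ℕ | k ∉ E ∧ ¬ F.Good (c k)}.Finite) ∧
    Examples (Fin r) :=
  ⟨fun _ hc => of_avoids hc.avoids, examples (Fin r)⟩

end Pool.Agent.Results.MP_0704bf_ag.NormalSequences
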