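import Mathlib
import Pool.Agent.U980.HL.Main

/-!
# Special subvarieties are cut out by one Hodge class of degree four, and the tensorial Hodge locus
is the Hodge locus of `V ^ (⊗ 4)`

A Hodge structure on `V = ℚ ^ n` polarized by a rational bilinear form `Q` (symmetric in even weight,
alternating in odd weight) is given by the endomorphism `j` of `V_ℝ` which is multiplication by
`i (p - q)` on `V ^ (p, q)` (`Polarized Q j`): the circle acts through `h (e ^ (i θ)) = exp (θ j)`,
it respects `Q`, and `Q (x, C y)` is symmetric and positive definite for the Weil operator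
`C = h (i) = exp (π j / 2)`. Multilinear forms on `V` of arbitrary degree `d`, with rational
coefficients, which are fixed by the circle are the Hodge forms (`IsHodge`). By the polarization
`V ≅ V ^ ∨` up to a Tate twist, these are all the Hodge tensors in `V ^ (⊗ a) ⊗ V ^ ∨ (⊗ b)`, and the
Mumford-Tate group of `j'` is contained in that of `j` if and only if all Hodge forms of `j` are
Hodge forms of `j'` (`Keeps j j'`).

**Theorem.** (1) Let `j` be a Hodge structure polarized by `Q`, of any weight. There is *one* rational
form `c` of degree `4`, Hodge for `j`, such that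

* for all `a` which keep the Hodge forms of `j` (in particular for `a = j`) and all `j'` near `a`
  polarized by `Q`: if `c` is Hodge for `j'`, then all Hodge forms of `j`, of every degree, are Hodge
  for `j'` (and conversely);
* in every connected continuous family of Hodge structures polarized by `Q` along which `c` is Hodge:
  if one member keeps all the Hodge forms of `j`, then all members do.

(2) Let `φ s`, `s ∈ S`, be a connected continuous family of Hodge structures polarized by `Q`, and `g`
a Hodge generic point (all Hodge forms of `φ g` are Hodge forms of all `φ s`). Then the locus of the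
points `s` with exceptional Hodge forms (i.e. not Hodge for `φ g`) of any degree is the locus of the
points with exceptional Hodge forms of degree `4`.

For a polarizable variation of Hodge structure on a variety `S`, apply this on the universal cover,
in flat coordinates (`IsFamily`): every special subvariety of `S` is an irreducible component of the
Hodge locus of a single class of `V ^ (⊗ 4)`, and the tensorial Hodge locus `HL (S, V ^ ⊗)` is the
Hodge locus of `V ^ (⊗ 4)`. The class is the form `Q (P (v ↦ Q (y, v) x) z, w)` of `x, y, z, w`, where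
`P` is the projection of `End V` onto the Lie algebra of the Hodge group of `j`, orthogonal for the
trace form; the torus part of the group is controlled by the integrality of `j`.
-/

set_option autoImplicit false

namespace Pool.Agent.Results.MP_0704bf_ag.TensorialLocusInDegreeFour

open Pool.Agent.U980.HL Filter Topology

theorem result (n : ℕ) (Q : Matrix (Fin n) (Fin n) ℚ) :
    (∀ j : Matrix (Fin n) (Fin n) ℝ, Polarized Q j →
      ∃ c : (Fin 4 → Fin n) → ℚ, IsHodge j c ∧
        (∀ a, Polarized Q a → Keeps j a →
          ∃ U ∈ 𝓝 a, ∀ j' ∈ U, Polarized Q j' → (IsHodge j' c ↔ Keeps j j')) ∧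
        ∀ (S : Type) [TopologicalSpace S] [PreconnectedSpace S]
          (φ : S → Matrix (Fin n) (Fin n) ℝ), IsFamily Q φ →
          (∀ s, IsHodge (φ s) c) → (∃ s, Keeps j (φ s)) → ∀ s, Keeps j (φ s)) ∧
    (∀ (S : Type) [TopologicalSpace S] [PreconnectedSpace S]
      (φ : S → Matrix (Fin n) (Fin n) ℝ), IsFamily Q φ →
      ∀ g : S, (∀ s, Keeps (φ g) (φ s)) → ∀ s,
        ((∃ (d : ℕ) (t : (Fin d → Fin n) → ℚ), IsHodge (φ s) t ∧ ¬ IsHodge (φ g) t) ↔
          ∃ c : (Fin 4 → Fin n) → ℚ, IsHodge (φ s) c ∧ ¬ IsHodge (φ g) c)) := by
  constructor
  · intro j hp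
    obtain ⟨c, hc, h⟩ := exists_quartic hp
    refine ⟨c, hc, fun a ha hk => ?_, fun S _ _ φ hφ hH h0 => ?_⟩
    · refine ⟨_, h a ha hk, fun j' h1 h2 => ⟨fun h3 => h1 h2 h3, fun h3 => h3 4 c hc⟩⟩
    · exact family h hφ.1 hφ.2 hH h0
  · intro S _ _ φ hφ g hg s
    constructor
    · rintro ⟨d, t, h1, h2⟩
      obtain ⟨c, hc, h⟩ := exists_quartic (hφ.2 s)
      refine ⟨c, hc, fun hgc => h2 ?_⟩
      have h3 := family h hφ.1 hφ.2 (fun s' => hg s' 4 c hgc) ⟨s, fun _ _ ht => ht⟩ g
      exact h3 d t h1
    · rintro ⟨c, h1, h2⟩
      exact ⟨4, c, h1, h2⟩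

end Pool.Agent.Results.MP_0704bf_ag.TensorialLocusInDegreeFour
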